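import Pool.Agent.LE.StmtsW
import Pool.Agent.Helper26_LCN.Ufm

/-!
# CST (helper3): the moments of the positive part of `- log |G|`, with a fixed power of `1 / |σ|`
-/

set_option autoImplicit false
set_option linter.unusedSectionVars false

open scoped Topology ENNReal
open MeasureTheory Filter ProbabilityTheory

noncomputable section

namespace Pool.Agent.LE.H3W

open Pool.Agent.Anderson Pool.Agent.Loc Pool.Agent.Mob Pool.Agent.Helper54.Bal Pool.Agent.LY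
  Pool.Agent.LE.H54 Pool.Agent.LE.H26U

variable {d : ℕ}

/-- the constant of the negative moment -/
theorem CC_le' {σ : ℝ} (hσ : σ ≠ 0) (h1 : |σ| ≤ 1) (M : ℝ) :
    CC (gl σ) (1 / |σ|) M ≤ ENNReal.ofReal (1 / |σ|) *
      (ENNReal.ofReal M * (2 + mom1 (gl 1) + ENNReal.ofReal 3)) := by
  have hs : 0 < |σ| := abs_pos.2 hσ
  have hL : 1 ≤ 1 / |σ| := by
    rw [le_div_iff₀ hs, one_mul]
    exact h1
  have hL' : (1 : ℝ≥0∞) ≤ ENNReal.ofReal (1 / |σ|) := by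
    rw [← ENNReal.ofReal_one]
    exact ENNReal.ofReal_le_ofReal hL
  unfold CC
  rw [mom1_eq]
  have e1 : (2 : ℝ≥0∞) ≤ ENNReal.ofReal (1 / |σ|) * 2 := by
    calc (2 : ℝ≥0∞) = 1 * 2 := (one_mul 2).symm
      _ ≤ _ := mul_le_mul_left hL' 2
  have e2 : ENNReal.ofReal |σ| * mom1 (gl 1) ≤ ENNReal.ofReal (1 / |σ|) * mom1 (gl 1) := by
    refine mul_le_mul_left (ENNReal.ofReal_le_ofReal ?_) _
    linarith
  have e3 : ENNReal.ofReal (1 + 2 * (1 / |σ|)) ≤ ENNReal.ofReal (1 / |σ|) * ENNReal.ofReal 3 := by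
    rw [← ENNReal.ofReal_mul (by positivity)]
    apply ENNReal.ofReal_le_ofReal
    linarith
  calc ENNReal.ofReal M * (2 + ENNReal.ofReal |σ| * mom1 (gl 1) +
        ENNReal.ofReal (1 + 2 * (1 / |σ|)))
      ≤ ENNReal.ofReal M * (ENNReal.ofReal (1 / |σ|) * 2 +
          ENNReal.ofReal (1 / |σ|) * mom1 (gl 1) +
          ENNReal.ofReal (1 / |σ|) * ENNReal.ofReal 3) := by gcongr
    _ = _ := by ring

/-- the negative moment -/
theorem lowP (hd : 1 ≤ d) : ∃ K : ℝ, 0 < K ∧ ∀ σ E : ℝ, σ ≠ 0 → |σ| ≤ 1 → |E| ≤ 2 * d →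
    ∀ (Λ : Finset (Site d)) (x y : Site d), x ∈ Λ → y ∈ Λ → (x = y ∨ hop x y ≠ 0) →
    ∫⁻ V, (ENNReal.ofReal |gr V Λ E x y|) ^ (-(1 / 4) : ℝ) ∂(PL (gl σ) Λ) ≤
      ENNReal.ofReal (K * (1 / |σ|) ^ (5 ^ d)) := by
  set M : ℝ := 32 * (d : ℝ) ^ 2 + 4 + (2 * d + 1) with hM
  have hM0 : 0 < M := by positivity
  set K : ℝ≥0∞ := (ENNReal.ofReal M * (2 + mom1 (gl 1) + ENNReal.ofReal 3)) ^ (5 ^ d) *
      (ENNReal.ofReal (1 / (16 * M ^ 2))) ^ (-(1 / 4) : ℝ) with hK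
  have hKt : K ≠ ∞ := by
    refine ENNReal.mul_ne_top (ENNReal.pow_ne_top (ENNReal.mul_ne_top ENNReal.ofReal_ne_top ?_)) ?_
    · refine ENNReal.add_ne_top.2 ⟨ENNReal.add_ne_top.2 ⟨by norm_num, mom1_gl 1⟩,
        ENNReal.ofReal_ne_top⟩
    · refine ENNReal.rpow_ne_top_of_ne_zero ?_ ENNReal.ofReal_ne_top
      rw [Ne, ENNReal.ofReal_eq_zero, not_le]
      positivity
  refine ⟨K.toReal + 1, by positivity, ?_⟩
  intro σ E hσ hs hE Λ x y hx hy hxy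
  have h1 := low (bddDens_gl hσ) (M := M) (E := E) (by rw [hM]; linarith) Λ
    (by
      rw [hM]
      have : 0 ≤ 32 * (d : ℝ) ^ 2 := by positivity
      linarith) hx hy hxy
  refine h1.trans ?_
  have h2 : Clow d (gl σ) (1 / |σ|) M ≤ ENNReal.ofReal (1 / |σ|) ^ (5 ^ d) * K := by
    unfold Clow
    calc CC (gl σ) (1 / |σ|) M ^ (5 ^ d) * (ENNReal.ofReal (1 / (16 * M ^ 2))) ^ (-(1 / 4) : ℝ)
        ≤ (ENNReal.ofReal (1 / |σ|) * (ENNReal.ofReal M * (2 + mom1 (gl 1) +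
          ENNReal.ofReal 3))) ^ (5 ^ d) *
          (ENNReal.ofReal (1 / (16 * M ^ 2))) ^ (-(1 / 4) : ℝ) := by
          gcongr
          exact CC_le' hσ hs M
      _ = _ := by
          rw [mul_pow, mul_assoc]
  refine h2.trans ?_
  rw [← ENNReal.ofReal_pow (by positivity), ← ENNReal.ofReal_toReal hKt,
    ← ENNReal.ofReal_mul (by positivity)]
  apply ENNReal.ofReal_le_ofReal
  rw [ENNReal.toReal_ofReal ENNReal.toReal_nonneg, mul_comm]
  apply mul_le_mul_of_nonneg_right _ (by positivity)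
  linarith

/-- the norm at neighbouring sites -/
theorem nearP {K σ E : ℝ} (hK : 0 < K) (hσ : σ ≠ 0) {p : ℝ} (hp : 0 < p) (Λ : Finset (Site d))
    (x y : Site d)
    (h : ∫⁻ V, (ENNReal.ofReal |gr V Λ E x y|) ^ (-(1 / 4) : ℝ) ∂(PL (gl σ) Λ) ≤
      ENNReal.ofReal (K * (1 / |σ|) ^ (5 ^ d))) :
    Nn (PL (gl σ) Λ) p (fun V => Dp (gr V Λ E x y)) ≤
      ENNReal.ofReal (((4 * p) ^ p * (K * (1 / |σ|) ^ (5 ^ d))) ^ (1 / p)) := by
  have hs : 0 < |σ| := abs_pos.2 hσ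
  rw [← ENNReal.ofReal_rpow_of_nonneg (by positivity) (by positivity)]
  apply Nn_le hp
  calc ∫⁻ V, (Dp (gr V Λ E x y)) ^ p ∂(PL (gl σ) Λ)
      ≤ ∫⁻ V, ENNReal.ofReal ((4 * p) ^ p) * (ENNReal.ofReal |gr V Λ E x y|) ^ (-(1 / 4) : ℝ)
          ∂(PL (gl σ) Λ) := lintegral_mono fun V => Dp_rpow_le hp _
    _ = ENNReal.ofReal ((4 * p) ^ p) * ∫⁻ V, (ENNReal.ofReal |gr V Λ E x y|) ^ (-(1 / 4) : ℝ)
          ∂(PL (gl σ) Λ) := lintegral_const_mul' _ _ ENNReal.ofReal_ne_top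
    _ ≤ ENNReal.ofReal ((4 * p) ^ p) * ENNReal.ofReal (K * (1 / |σ|) ^ (5 ^ d)) := by
        gcongr
    _ = _ := by rw [← ENNReal.ofReal_mul (by positivity)]

theorem add_rpow_root {a b q : ℝ} (ha : 0 ≤ a) (hb : 0 ≤ b) (hq : 0 < q) :
    (a ^ (1 / q) + b ^ (1 / q)) ^ q ≤ 2 ^ q * (a + b) := by
  have h1 : a ^ (1 / q) ≤ (a + b) ^ (1 / q) :=
    Real.rpow_le_rpow ha (by linarith) (by positivity)
  have h2 : b ^ (1 / q) ≤ (a + b) ^ (1 / q) :=
    Real.rpow_le_rpow hb (by linarith) (by positivity)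
  have h3 : a ^ (1 / q) + b ^ (1 / q) ≤ 2 * (a + b) ^ (1 / q) := by linarith
  calc (a ^ (1 / q) + b ^ (1 / q)) ^ q ≤ (2 * (a + b) ^ (1 / q)) ^ q :=
        Real.rpow_le_rpow (by positivity) h3 hq.le
    _ = 2 ^ q * (a + b) := by
        rw [Real.mul_rpow (by norm_num) (by positivity), ← Real.rpow_mul (by linarith), one_div,
          inv_mul_cancel₀ hq.ne', Real.rpow_one]

theorem cst : CstStmt := by
  intro d hd
  obtain ⟨K, hK, hlow⟩ := lowP hd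
  refine ⟨(5 ^ d : ℕ), by exact_mod_cast Nat.one_le_pow _ _ (by norm_num), ?_⟩
  intro q hq
  have hq1 : (1 : ℝ) ≤ q := by exact_mod_cast hq
  have hq0 : (0 : ℝ) < q := by linarith
  set qq : ℝ := (q : ℝ) with hqq
  refine ⟨(d : ℝ) ^ q * (2 ^ q * ((4 * qq) ^ qq * K + (2 * qq) ^ qq * 9)), ?_, ?_⟩
  · have : (0 : ℝ) < d := by exact_mod_cast hd
    positivity
  intro σ E N x y hσ hs hE hx hy
  have hs0 : 0 < |σ| := abs_pos.2 hσ
  have hL : 1 ≤ 1 / |σ| := by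
    rw [le_div_iff₀ hs0, one_mul]
    exact hs
  have hd1 : (1 : ℝ) ≤ d := by exact_mod_cast hd
  set Λ := box (0 : Site d) N with hΛ
  set P : ℝ := (1 / |σ|) ^ (5 ^ d) with hP
  have hP1 : 1 / |σ| ≤ P := by
    rw [hP]
    exact le_self_pow₀ hL (by positivity)
  have hP0 : 0 < P := by positivity
  set a : ℝ := (4 * qq) ^ qq * (K * P) with ha
  set b : ℝ := (2 * qq) ^ qq * (1 + 8 * (1 / |σ|)) with hb
  have ha0 : 0 ≤ a := by positivity
  have hb0 : 0 ≤ b := by positivity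
  have hab : a + b ≤ ((4 * qq) ^ qq * K + (2 * qq) ^ qq * 9) * P := by
    have h1 : 1 + 8 * (1 / |σ|) ≤ 9 * P := by linarith
    have h2 : b ≤ (2 * qq) ^ qq * (9 * P) := mul_le_mul_of_nonneg_left h1 (by positivity)
    calc a + b ≤ (4 * qq) ^ qq * (K * P) + (2 * qq) ^ qq * (9 * P) := by linarith
      _ = _ := by ring
  have mg : Measurable fun V : Site d → ℝ => gr V Λ E x y := measurable_gr Λ E x y
  have mD : Measurable fun V : Site d → ℝ => Dp (gr V Λ E x y) := measurable_Dp.comp mg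
  have hp := path_in (σ := σ) (E := E) (p := qq) (N := N) hq1 (C1 := a ^ (1 / qq))
    (C2 := b ^ (1 / qq)) (by positivity) (by positivity)
    (fun x y hx hy hxy => nearP hK hσ hq0 _ x y (hlow σ E hσ hs hE _ x y hx hy hxy))
    (fun x u y => ratioC hσ E hq0 _ x u y) hx (l1 x y) y rfl hy
  have hDL : ∀ V : Site d → ℝ, (ENNReal.ofReal (DL Λ E V x y)) ^ q ≤
      (Dp (gr V Λ E x y)) ^ qq := by
    intro V
    rw [hqq, ENNReal.rpow_natCast]
    apply pow_le_pow_left'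
    unfold DL Dp
    split_ifs
    · exact le_top
    · exact le_rfl
  calc ∫⁻ V, (ENNReal.ofReal (DL Λ E V x y)) ^ q ∂(PP d (gl σ))
      ≤ ∫⁻ V, (Dp (gr V Λ E x y)) ^ qq ∂(PP d (gl σ)) := lintegral_mono hDL
    _ = ∫⁻ V, (Dp (gr V Λ E x y)) ^ qq ∂(PL (gl σ) Λ) :=
        lint_PP Λ (mD.pow_const _) (fun V V' hV => by rw [gr_congr hV])
    _ = (Nn (PL (gl σ) Λ) qq (fun V => Dp (gr V Λ E x y))) ^ qq := (Nn_rpow hq0 _).symm
    _ ≤ (ENNReal.ofReal (((l1 x y : ℝ) + 1) * (a ^ (1 / qq) + b ^ (1 / qq)))) ^ qq :=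
        ENNReal.rpow_le_rpow hp hq0.le
    _ ≤ _ := by
        rw [ENNReal.ofReal_rpow_of_nonneg (by positivity) hq0.le]
        apply ENNReal.ofReal_le_ofReal
        have h3 : (l1 x y : ℝ) ≤ d * sd x y := by exact_mod_cast l1_le x y le_rfl
        have h5 : ((l1 x y : ℝ) + 1) ≤ d * ((sd x y : ℝ) + 1) := by linarith
        have h6 : (((l1 x y : ℝ) + 1)) ^ qq ≤ (d * ((sd x y : ℝ) + 1)) ^ qq :=
          Real.rpow_le_rpow (by positivity) h5 hq0.le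
        have h7 := add_rpow_root ha0 hb0 hq0
        have h8 : |σ| ^ (-((5 ^ d : ℕ) : ℝ)) = P := by
          rw [Real.rpow_neg hs0.le, Real.rpow_natCast, hP, one_div, inv_pow]
        rw [h8, Real.mul_rpow (by positivity) (by positivity)]
        have h9 : (d * ((sd x y : ℝ) + 1)) ^ qq = (d : ℝ) ^ q * ((sd x y : ℝ) + 1) ^ q := by
          rw [hqq, Real.rpow_natCast, mul_pow]
        have h10 : (2 : ℝ) ^ qq = 2 ^ q := by rw [hqq, Real.rpow_natCast]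
        rw [h9] at h6
        rw [h10] at h7
        calc ((l1 x y : ℝ) + 1) ^ qq * (a ^ (1 / qq) + b ^ (1 / qq)) ^ qq
            ≤ ((d : ℝ) ^ q * ((sd x y : ℝ) + 1) ^ q) * (2 ^ q * (a + b)) :=
              mul_le_mul h6 h7 (by positivity) (by positivity)
          _ ≤ ((d : ℝ) ^ q * ((sd x y : ℝ) + 1) ^ q) *
              (2 ^ q * (((4 * qq) ^ qq * K + (2 * qq) ^ qq * 9) * P)) := by gcongr
          _ = _ := by ring

end Pool.Agent.LE.H3W
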