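import Pool.Agent.Helper48_Loc.CT

/-!
# The Combes-Thomas bound with `cosh`
-/

set_option autoImplicit false
set_option linter.unusedSectionVars false

open MeasureTheory ProbabilityTheory Function

open scoped ENNReal BigOperators

noncomputable section

namespace Pool.Agent.LE.H3Y

open Pool.Agent.Anderson Pool.Agent.Loc

variable {d : ℕ}

/-- The Combes-Thomas bound. -/
theorem combes_thomas_cosh {V : Site d → ℝ} {Λ : Finset (Site d)} {E s g : ℝ} (hg : 0 < g)
    (hs : |s| = 1) (h : LB V Λ E s g) {κ : ℝ} (hκ : 0 ≤ κ)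
    (hκg : 2 * d * (Real.cosh κ - 1) ≤ g / 2) (x y : Site d) :
    |gr V Λ E x y| ≤ 2 / g * Real.exp (-κ * sd x y) := by
  by_cases hxy : x ∈ Λ ∧ y ∈ Λ
  swap
  · unfold gr
    rw [dif_neg hxy, abs_zero]
    positivity
  obtain ⟨hx, hy⟩ := hxy
  have hdet : (RM V Λ E).det ≠ 0 := by
    intro hd
    obtain ⟨v, hv, hv0⟩ := Matrix.exists_mulVec_eq_zero_iff.2 hd
    apply hv
    set u : Site d → ℝ := fun z => if hz : z ∈ Λ then v ⟨z, hz⟩ else 0 with hu
    have huv : (fun z : Λ => u z) = v := by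
      funext z
      simp [hu]
    have h1 := h u
    rw [qform_eq_dot, huv, hv0, dotProduct_zero, mul_zero] at h1
    have h2 : ∑ z ∈ Λ, u z ^ 2 ≤ 0 := by
      by_contra hcon
      push Not at hcon
      have := mul_pos hg hcon
      linarith
    have h3 : ∑ z ∈ Λ, u z ^ 2 = 0 := le_antisymm h2 (Finset.sum_nonneg fun z _ => sq_nonneg _)
    rw [Finset.sum_eq_zero_iff_of_nonneg fun z _ => sq_nonneg _] at h3
    funext z
    have h4 := h3 z z.2
    rw [← huv]
    exact pow_eq_zero_iff (two_ne_zero) |>.1 h4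
  -- the weighted vector
  set w : Site d → ℝ := fun z => Real.exp (κ * sd x z) with hw
  have hw0 : ∀ z, 0 < w z := fun z => Real.exp_pos _
  set ψ : Site d → ℝ := fun z => w z * gr V Λ E x z with hψ
  have hwx : w x = 1 := by simp [hw, sd_self]
  have heq : ∀ z ∈ Λ, ∑ z' ∈ Λ, gr V Λ E x z' * rm V E z' z = if x = z then 1 else 0 :=
    fun z hz => gr_mul_rm hdet hx hz
  have hrm : ∀ z z', rm V E z z' = rm V E z' z := by
    intro z z'
    unfold rm
    rw [hop_comm]
    by_cases hzz : z = z'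
    · subst hzz; simp
    · rw [if_neg hzz, if_neg (Ne.symm hzz)]
  -- the conjugated form
  have h1 : ∑ z ∈ Λ, ∑ z' ∈ Λ, ψ z * (w z / w z' * rm V E z z') * ψ z' = ψ x := by
    have h2 : ∀ z ∈ Λ, ∑ z' ∈ Λ, ψ z * (w z / w z' * rm V E z z') * ψ z' =
        if x = z then ψ z * w z else 0 := by
      intro z hz
      have h3 : ∀ z', ψ z * (w z / w z' * rm V E z z') * ψ z' =
          ψ z * w z * (gr V Λ E x z' * rm V E z' z) := by
        intro z'
        have := (hw0 z').ne'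
        rw [hrm z z']
        simp only [hψ]
        field_simp
      simp_rw [h3]
      rw [← Finset.mul_sum, heq z hz]
      split_ifs <;> ring
    rw [Finset.sum_congr rfl h2, Finset.sum_ite_eq, if_pos hx, hwx, mul_one]
  have h2 : ∑ z ∈ Λ, ∑ z' ∈ Λ, ψ z * (w z / w z' * rm V E z z') * ψ z' =
      qform V Λ E ψ + ∑ z ∈ Λ, ∑ z' ∈ Λ, ψ z * ((w z / w z' - 1) * rm V E z z') * ψ z' := by
    unfold qform
    rw [← Finset.sum_add_distrib]
    apply Finset.sum_congr rfl
    intro z _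
    rw [← Finset.sum_add_distrib]
    apply Finset.sum_congr rfl
    intro z' _
    ring
  have hcosh : 0 ≤ Real.cosh κ - 1 := by
    have := Real.one_le_cosh κ
    linarith
  have hsym : ∑ z ∈ Λ, ∑ z' ∈ Λ, ψ z * ((w z / w z' - 1) * rm V E z z') * ψ z' =
      ∑ z ∈ Λ, ∑ z' ∈ Λ, ψ z * (((w z / w z' + w z' / w z) / 2 - 1) * rm V E z z') * ψ z' := by
    have e1 : ∑ z ∈ Λ, ∑ z' ∈ Λ, ψ z * ((w z / w z' - 1) * rm V E z z') * ψ z' =
        ∑ z ∈ Λ, ∑ z' ∈ Λ, ψ z * ((w z' / w z - 1) * rm V E z z') * ψ z' := by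
      rw [Finset.sum_comm]
      refine Finset.sum_congr rfl fun z _ => Finset.sum_congr rfl fun z' _ => ?_
      rw [hrm z' z]
      ring
    have e2 : ∑ z ∈ Λ, ∑ z' ∈ Λ, ψ z * (((w z / w z' + w z' / w z) / 2 - 1) * rm V E z z') * ψ z' =
        (∑ z ∈ Λ, ∑ z' ∈ Λ, ψ z * ((w z / w z' - 1) * rm V E z z') * ψ z' +
          ∑ z ∈ Λ, ∑ z' ∈ Λ, ψ z * ((w z' / w z - 1) * rm V E z z') * ψ z') / 2 := by
      rw [← Finset.sum_add_distrib, Finset.sum_div]
      refine Finset.sum_congr rfl fun z _ => ?_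
      rw [← Finset.sum_add_distrib, Finset.sum_div]
      refine Finset.sum_congr rfl fun z' _ => ?_
      ring
    rw [e2, ← e1]
    ring
  have h3 : |∑ z ∈ Λ, ∑ z' ∈ Λ, ψ z * ((w z / w z' - 1) * rm V E z z') * ψ z'| ≤
      (Real.cosh κ - 1) * (2 * d) * ∑ z ∈ Λ, ψ z ^ 2 := by
    rw [hsym]
    apply schur Λ ψ hcosh
    intro z z'
    by_cases hzz : z = z'
    · subst hzz
      rw [div_self (hw0 z).ne']
      norm_num
      exact mul_nonneg hcosh (hop_nonneg _ _)
    · have e1 : rm V E z z' = - hop z z' := by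
        unfold rm
        rw [if_neg hzz]; ring
      rw [e1, abs_mul, abs_neg, abs_of_nonneg (hop_nonneg z z')]
      by_cases hh : hop z z' = 0
      · rw [hh]; simp
      · have hd := sd_of_hop hh
        apply mul_le_mul_of_nonneg_right _ (hop_nonneg z z')
        have t1 := sd_triangle x z z'
        have t2 := sd_triangle x z' z
        rw [sd_comm z' z] at t2
        have e2 : ∀ a b : Site d, w a / w b = Real.exp (κ * ((sd x a : ℝ) - sd x b)) := by
          intro a b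
          simp only [hw]
          rw [← Real.exp_sub]
          congr 1
          ring
        have e3 : (w z / w z' + w z' / w z) / 2 =
            Real.cosh (κ * ((sd x z : ℝ) - sd x z')) := by
          rw [e2 z z', e2 z' z, Real.cosh_eq]
          congr 3
          ring
        have r1 : ((sd x z : ℕ) : ℝ) - sd x z' ≤ 1 := by
          have : sd x z ≤ sd x z' + 1 := by omega
          have : ((sd x z : ℕ) : ℝ) ≤ sd x z' + 1 := by exact_mod_cast this
          linarith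
        have r2 : -1 ≤ ((sd x z : ℕ) : ℝ) - sd x z' := by
          have : sd x z' ≤ sd x z + 1 := by omega
          have : ((sd x z' : ℕ) : ℝ) ≤ sd x z + 1 := by exact_mod_cast this
          linarith
        have e4 : Real.cosh (κ * ((sd x z : ℝ) - sd x z')) ≤ Real.cosh κ := by
          rw [Real.cosh_le_cosh, abs_mul, abs_of_nonneg hκ]
          have : |((sd x z : ℕ) : ℝ) - sd x z'| ≤ 1 := abs_le.2 ⟨r2, r1⟩
          nlinarith
        have e5 := Real.one_le_cosh (κ * ((sd x z : ℝ) - sd x z'))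
        rw [e3, abs_of_nonneg (by linarith)]
        linarith
  have h4 := h ψ
  set S := ∑ z ∈ Λ, ψ z ^ 2 with hS
  have hS0 : 0 ≤ S := Finset.sum_nonneg fun z _ => sq_nonneg _
  rw [h2] at h1
  generalize (∑ z ∈ Λ, ∑ z' ∈ Λ, ψ z * ((w z / w z' - 1) * rm V E z z') * ψ z') = T at h1 h3
  have h5 : qform V Λ E ψ = ψ x - T := by linarith
  have h6 : s * qform V Λ E ψ ≤ |ψ x| + g / 2 * S := by
    calc s * qform V Λ E ψ ≤ |s * qform V Λ E ψ| := le_abs_self _
      _ = |qform V Λ E ψ| := by rw [abs_mul, hs, one_mul]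
      _ ≤ |ψ x| + |T| := by
          rw [h5]; exact abs_sub _ _
      _ ≤ |ψ x| + (Real.cosh κ - 1) * (2 * d) * S := by linarith
      _ ≤ |ψ x| + g / 2 * S := by
          have h11 : (Real.cosh κ - 1) * (2 * d) ≤ g / 2 := by linarith
          have h12 := mul_le_mul_of_nonneg_right h11 hS0
          linarith
  have h7 : g / 2 * S ≤ |ψ x| := by linarith
  have hle : ∀ z ∈ Λ, ψ z ^ 2 ≤ S := fun z hz =>
    Finset.single_le_sum (f := fun z => ψ z ^ 2) (fun z _ => sq_nonneg _) hz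
  have h8 : |ψ x| ≤ √S := Real.abs_le_sqrt (hle x hx)
  have h9 : √S ≤ 2 / g := by
    rcases eq_or_lt_of_le (Real.sqrt_nonneg S) with h0 | h0
    · rw [← h0]; positivity
    · have h10 : g / 2 * (√S * √S) ≤ √S := by
        rw [Real.mul_self_sqrt hS0]; linarith
      rw [le_div_iff₀ hg]
      have h11 : (g / 2 * √S) * √S ≤ 1 * √S := by linarith
      have := le_of_mul_le_mul_right h11 h0
      linarith
  have h10 : |ψ y| ≤ 2 / g := (Real.abs_le_sqrt (hle y hy)).trans h9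
  simp only [hψ, hw, abs_mul, abs_of_pos (Real.exp_pos _)] at h10
  calc |gr V Λ E x y| = Real.exp (κ * sd x y) * |gr V Λ E x y| * Real.exp (-κ * sd x y) := by
        rw [mul_comm (Real.exp _), mul_assoc, ← Real.exp_add]
        simp
    _ ≤ 2 / g * Real.exp (-κ * sd x y) := by gcongr

/-- `cosh κ ≤ 1 + κ ^ 2` for `κ ≤ 1`. -/
theorem cosh_le {κ : ℝ} (h0 : 0 ≤ κ) (h1 : κ ≤ 1) : Real.cosh κ ≤ 1 + κ ^ 2 := by
  have h2 := Real.cosh_le_exp_half_sq κ
  set y := κ ^ 2 / 2 with hy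
  have hy0 : 0 ≤ y := by positivity
  have hy1 : y ≤ 1 / 2 := by
    rw [hy]
    nlinarith
  have h3 := Real.one_sub_le_exp_neg y
  have h4 : Real.exp (-y) * Real.exp y = 1 := by
    rw [← Real.exp_add]; simp
  have h5 : (1 - y) * Real.exp y ≤ 1 := by
    have := mul_le_mul_of_nonneg_right h3 (Real.exp_pos y).le
    linarith
  have h6 : Real.exp y ≤ 1 + 2 * y := by
    have h7 : 1 ≤ (1 - y) * (1 + 2 * y) := by nlinarith
    have h8 : 0 < 1 - y := by linarith
    have h9 : (1 - y) * Real.exp y ≤ (1 - y) * (1 + 2 * y) := h5.trans h7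
    exact le_of_mul_le_mul_left h9 h8
  have h7 : 1 + 2 * y = 1 + κ ^ 2 := by rw [hy]; ring
  linarith

/-- The rate `√g / (2 d)`. -/
theorem combes_thomas_sqrt (hd : 1 ≤ d) {V : Site d → ℝ} {Λ : Finset (Site d)} {E s g : ℝ}
    (hg : 0 < g) (hg1 : g ≤ 1) (hs : |s| = 1) (h : LB V Λ E s g) (x y : Site d) :
    |gr V Λ E x y| ≤ 2 / g * Real.exp (-(Real.sqrt g / (2 * d)) * sd x y) := by
  have hd' : (1 : ℝ) ≤ d := by exact_mod_cast hd
  have hs1 : Real.sqrt g ≤ 1 := by
    rw [show (1 : ℝ) = Real.sqrt 1 by simp]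
    exact Real.sqrt_le_sqrt hg1
  have hκ0 : 0 ≤ Real.sqrt g / (2 * d) := by positivity
  have hκ1 : Real.sqrt g / (2 * d) ≤ 1 := by
    rw [div_le_one (by positivity)]
    linarith
  apply combes_thomas_cosh hg hs h hκ0
  have h1 := cosh_le hκ0 hκ1
  have h2 : (Real.sqrt g / (2 * d)) ^ 2 = g / (4 * d ^ 2) := by
    rw [div_pow, Real.sq_sqrt hg.le]
    ring
  rw [h2] at h1
  have h3 : 2 * (d : ℝ) * (g / (4 * d ^ 2)) = g / 2 / d := by
    field_simp
    ring
  have h4 : g / 2 / d ≤ g / 2 := div_le_self (by positivity) hd'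
  nlinarith

/-- A form bounded below has a nonzero determinant. -/
theorem det_ne {V : Site d → ℝ} {Λ : Finset (Site d)} {E s g : ℝ} (hg : 0 < g)
    (h : LB V Λ E s g) : (RM V Λ E).det ≠ 0 := by
  intro hd
  obtain ⟨v, hv, hv0⟩ := Matrix.exists_mulVec_eq_zero_iff.2 hd
  apply hv
  set u : Site d → ℝ := fun z => if hz : z ∈ Λ then v ⟨z, hz⟩ else 0 with hu
  have huv : (fun z : Λ => u z) = v := by
    funext z
    simp [hu]
  have h1 := h u
  rw [qform_eq_dot, huv, hv0, dotProduct_zero, mul_zero] at h1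
  have h2 : ∑ z ∈ Λ, u z ^ 2 ≤ 0 := by
    by_contra hcon
    push Not at hcon
    have := mul_pos hg hcon
    linarith
  have h3 : ∑ z ∈ Λ, u z ^ 2 = 0 := le_antisymm h2 (Finset.sum_nonneg fun z _ => sq_nonneg _)
  rw [Finset.sum_eq_zero_iff_of_nonneg fun z _ => sq_nonneg _] at h3
  funext z
  have h4 := h3 z z.2
  rw [← huv]
  exact pow_eq_zero_iff (two_ne_zero) |>.1 h4

/-- CTX, the shape used in SGE. -/
theorem ctx {V : Site d → ℝ} {Λ : Finset (Site d)} {E δ κ : ℝ} (hδ : 0 < δ) (hκ : 0 ≤ κ)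
    (hk : 2 * d * (Real.cosh κ - 1) ≤ δ / 2)
    (hform : ∀ u : Site d → ℝ, δ * ∑ y ∈ Λ, u y ^ 2 ≤ qform V Λ E u) :
    (RM V Λ E).det ≠ 0 ∧ ∀ s ∈ Λ, ∀ u ∈ Λ,
      |gr V Λ E s u| ≤ 2 / δ * Real.exp (-κ * sd s u) := by
  have h : LB V Λ E 1 δ := fun u => by rw [one_mul]; exact hform u
  exact ⟨det_ne hδ h, fun s _ u _ => combes_thomas_cosh hδ abs_one h hκ hk s u⟩

end Pool.Agent.LE.H3Y
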